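import Pool.Agent.H50En.Defs

/-! Package E2: the Einstein vector on the new edges. -/

set_option autoImplicit false

namespace Pool.Agent.H51En

open Real Finset Pool.Agent.H50En

/-- The statement of package D for the type `W`. -/
def Pyr (W : Type) [DecidableEq W] : Prop :=
  ∀ (z : Sym2 W → ℝ) (s : Finset W) (a : W) (_ : a ∈ s) (m : ℕ) (_ : #s = m + 1)
    (_ : 1 ≤ m) (t : ℝ) (_ : 0 < 1 / 2 + m * (t - 1 / 2))
    (_ : ∀ x ∈ s, ∀ y ∈ s, x ≠ a → y ≠ a → x ≠ y → z s(x, y) = 1)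
    (_ : ∀ x ∈ s, x ≠ a → z s(a, x) = t),
    |(CM z s).det| = 1 + 2 * m * (t - 1 / 2) ∧
    (∀ x ∈ s, x ≠ a → Q z s a x = 1 / (2 * (1 / 2 + m * (t - 1 / 2)))) ∧
    (∀ x ∈ s, x ≠ a → Q z s x x = - (1 / 2 + (m - 1) * (t - 1 / 2)) / (1 / 2 + m * (t - 1 / 2))) ∧
    (∀ x ∈ s, ∀ y ∈ s, x ≠ a → y ≠ a → x ≠ y →
      Q z s x y = (t - 1 / 2) / (1 / 2 + m * (t - 1 / 2)))

theorem pairs {W : Type} [DecidableEq W] {σ T : Finset W} (h : σ ⊆ T) (hc : #T = #σ + 2) :
    (T ×ˢ T).filter (fun p => p.1 ≠ p.2 ∧ (T.erase p.1).erase p.2 = σ) = (T \ σ).offDiag := by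
  ext ⟨k, l⟩
  simp only [mem_filter, mem_product, mem_offDiag, mem_sdiff]
  constructor
  · rintro ⟨⟨hk, hl⟩, hkl, he⟩
    refine ⟨⟨hk, ?_⟩, ⟨hl, ?_⟩, hkl⟩
    · rw [← he]; simp
    · rw [← he]; simp
  · rintro ⟨⟨hk, hk'⟩, ⟨hl, hl'⟩, hkl⟩
    refine ⟨⟨hk, hl⟩, hkl, ?_⟩
    symm
    apply eq_of_subset_of_card_le
    · intro w hw
      simp only [mem_erase]
      refine ⟨?_, ?_, h hw⟩
      · rintro rfl; exact hl' hw
      · rintro rfl; exact hk' hw
    · rw [card_erase_of_mem (by simp [hl, Ne.symm hkl]), card_erase_of_mem hk]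
      omega

theorem angsum {W : Type} [DecidableEq W] {σ T : Finset W} (h : σ ⊆ T) (hc : #T = #σ + 2)
    {g : W → W → ℝ} {θ : ℝ} (hg : ∀ k ∈ T, ∀ l ∈ T, k ∉ σ → l ∉ σ → k ≠ l → g k l = θ) :
    ∑ k ∈ T, ∑ l ∈ T, (if k ≠ l ∧ (T.erase k).erase l = σ then g k l else 0) = 2 * θ := by
  rw [← Finset.sum_product', ← Finset.sum_filter (fun p : W × W => p.1 ≠ p.2 ∧
    (T.erase p.1).erase p.2 = σ) (fun p => g p.1 p.2), pairs h hc]
  rw [Finset.sum_congr rfl (g := fun _ => θ)]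
  · rw [sum_const, offDiag_card, card_sdiff_of_subset h, hc]
    have : #σ + 2 - #σ = 2 := by omega
    rw [this]
    norm_num
  · rintro ⟨k, l⟩ hp
    simp only [mem_offDiag, mem_sdiff] at hp
    exact hg k hp.1.1 l hp.2.1.1 hp.1.2 hp.2.1.2 hp.2.2

theorem angsum_zero {W : Type} [DecidableEq W] {σ T : Finset W} (h : ¬ σ ⊆ T)
    {g : W → W → ℝ} :
    ∑ k ∈ T, ∑ l ∈ T, (if k ≠ l ∧ (T.erase k).erase l = σ then g k l else 0) = 0 := by
  refine sum_eq_zero fun k _ => sum_eq_zero fun l _ => if_neg ?_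
  rintro ⟨_, rfl⟩
  exact h ((erase_subset _ _).trans (erase_subset _ _))

variable {V : Type} [DecidableEq V]

/-- The simplex with the new vertex of `T` and the old vertices `τ`. -/
def F (T τ : Finset V) : Finset (V ⊕ Finset V) :=
  insert (Sum.inr T) (τ.map ⟨Sum.inl, Sum.inl_injective⟩)

theorem mem_F_inl {T τ : Finset V} {x : V} : Sum.inl x ∈ F T τ ↔ x ∈ τ := by
  simp [F]

theorem mem_F_inr {T τ S : Finset V} : Sum.inr S ∈ F T τ ↔ S = T := by
  simp [F]

theorem card_F (T τ : Finset V) : #(F T τ) = #τ + 1 := by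
  rw [F, card_insert_of_notMem (by simp), card_map]

theorem F_subset {T τ υ : Finset V} : F T τ ⊆ F T υ ↔ τ ⊆ υ := by
  constructor
  · intro h x hx
    exact mem_F_inl.1 (h (mem_F_inl.2 hx))
  · intro h w hw
    rcases w with w | w
    · exact mem_F_inl.2 (h (mem_F_inl.1 hw))
    · exact mem_F_inr.2 (mem_F_inr.1 hw)

theorem F_inj {T τ υ : Finset V} (h : F T τ = F T υ) : τ = υ :=
  Subset.antisymm (F_subset.1 h.subset) (F_subset.1 h.symm.subset)

theorem mem_cone {K : Finset (Finset V)} {T' : Finset (V ⊕ Finset V)} :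
    T' ∈ cone K ↔ ∃ T ∈ K, ∃ v ∈ T, T' = F T (T.erase v) := by
  simp only [cone, mem_biUnion, mem_image, F]
  constructor
  · rintro ⟨T, hT, v, hv, rfl⟩
    exact ⟨T, hT, v, hv, rfl⟩
  · rintro ⟨T, hT, v, hv, rfl⟩
    exact ⟨T, hT, v, hv, rfl⟩

theorem filt {n : ℕ} (hn : 4 ≤ n) {K : Finset (Finset V)} (hK : Pure n K)
    {T : Finset V} (hT : T ∈ K) (x : V) :
    (faces (cone K) (n - 1)).filter (fun σ => Sum.inr T ∈ σ ∧ Sum.inl x ∈ σ) =
      ((powersetCard (n - 2) T).filter (x ∈ ·)).image (F T) := by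
  ext σ
  simp only [faces, mem_filter, mem_biUnion, mem_powersetCard, mem_image, mem_cone]
  constructor
  · rintro ⟨⟨T', ⟨S, hS, v, hv, rfl⟩, hσ, hc⟩, h1, h2⟩
    have hST : T = S := mem_F_inr.1 (hσ h1)
    subst hST
    refine ⟨T.filter (fun y => Sum.inl y ∈ σ), ⟨⟨filter_subset _ _, ?_⟩, ?_⟩, ?_⟩
    · have e : F T (T.filter (fun y => Sum.inl y ∈ σ)) = σ := by
        ext w
        rcases w with w | w
        · rw [mem_F_inl, mem_filter]
          constructor
          · exact fun h => h.2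
          · exact fun h => ⟨mem_of_mem_erase (mem_F_inl.1 (hσ h)), h⟩
        · rw [mem_F_inr]
          constructor
          · rintro rfl; exact h1
          · exact fun h => mem_F_inr.1 (hσ h)
      have := card_F T (T.filter (fun y => Sum.inl y ∈ σ))
      rw [e, hc] at this
      omega
    · exact mem_filter.2 ⟨mem_of_mem_erase (mem_F_inl.1 (hσ h2)), h2⟩
    · ext w
      rcases w with w | w
      · rw [mem_F_inl, mem_filter]
        constructor
        · exact fun h => h.2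
        · exact fun h => ⟨mem_of_mem_erase (mem_F_inl.1 (hσ h)), h⟩
      · rw [mem_F_inr]
        constructor
        · rintro rfl; exact h1
        · exact fun h => mem_F_inr.1 (hσ h)
  · rintro ⟨τ, ⟨⟨h1, h2⟩, h3⟩, rfl⟩
    have hlt : #τ < #T := by rw [h2, hK T hT]; omega
    obtain ⟨v, hv, hvτ⟩ : ∃ v ∈ T, v ∉ τ := by
      by_contra hcon
      push_neg at hcon
      exact absurd (card_le_card (fun y hy => hcon y hy : T ⊆ τ)) (by omega)
    refine ⟨⟨F T (T.erase v), ⟨T, hT, v, hv, rfl⟩, F_subset.2 ?_, ?_⟩, mem_F_inr.2 rfl,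
      mem_F_inl.2 h3⟩
    · intro y hy
      exact mem_erase.2 ⟨fun e => hvτ (e ▸ hy), h1 hy⟩
    · rw [card_F, h2]; omega

theorem card_filt {n : ℕ} (hn : 4 ≤ n) {T : Finset V} (hT : #T = n + 1) {x : V} (hx : x ∈ T) :
    #((powersetCard (n - 2) T).filter (x ∈ ·)) = n.choose 3 := by
  have e : (powersetCard (n - 2) T).filter (x ∈ ·) =
      (powersetCard (n - 3) (T.erase x)).image (insert x) := by
    ext τ
    simp only [mem_filter, mem_powersetCard, mem_image]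
    constructor
    · rintro ⟨⟨h1, h2⟩, h3⟩
      refine ⟨τ.erase x, ⟨erase_subset_erase x h1, ?_⟩, insert_erase h3⟩
      rw [card_erase_of_mem h3, h2]; omega
    · rintro ⟨υ, ⟨h1, h2⟩, rfl⟩
      have hxυ : x ∉ υ := fun h => by simpa using h1 h
      refine ⟨⟨?_, ?_⟩, mem_insert_self _ _⟩
      · intro y hy
        rcases mem_insert.1 hy with rfl | hy
        · exact hx
        · exact mem_of_mem_erase (h1 hy)
      · rw [card_insert_of_notMem hxυ, h2]; omega
  rw [e, card_image_of_injOn, card_powersetCard, card_erase_of_mem hx, hT]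
  · have h1 : n + 1 - 1 = n := by omega
    rw [h1]
    exact Nat.choose_symm (by omega : 3 ≤ n)
  · intro a ha b hb hab
    have ha' : x ∉ a := fun h => by simpa using (mem_powersetCard.1 ha).1 h
    have hb' : x ∉ b := fun h => by simpa using (mem_powersetCard.1 hb).1 h
    have hab' : insert x a = insert x b := hab
    rw [← erase_insert ha', hab', erase_insert hb']

/-- The angle of the pyramid at a lateral ridge. -/
theorem ang_lat (hP : Pyr (V ⊕ Finset V)) {n : ℕ} (hn : 4 ≤ n) {T τ : Finset V} (hτ : #τ = n)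
    {t : ℝ} (ht : 0 < 1 / 2 + n * (t - 1 / 2)) (ht1 : t < 1 / 2) {z : Sym2 (V ⊕ Finset V) → ℝ}
    (h1 : ∀ x y : V, x ≠ y → z s(Sum.inl x, Sum.inl y) = 1)
    (h2 : ∀ (T : Finset V) (x : V), z s(Sum.inr T, Sum.inl x) = t)
    {k l : V ⊕ Finset V} (hk : k ∈ F T τ) (hl : l ∈ F T τ) (hk' : k ≠ Sum.inr T)
    (hl' : l ≠ Sum.inr T) (hkl : k ≠ l) :
    ang z (F T τ) k l = arccos ((t - 1 / 2) / (1 / 2 + (n - 1) * (t - 1 / 2))) := by
  obtain ⟨-, -, hb, hc⟩ := hP z (F T τ) (Sum.inr T) (mem_F_inr.2 rfl) n (by rw [card_F, hτ])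
    (by omega) t ht
    (by
      intro a ha b hb ha' hb' hab
      rcases a with a | a
      · rcases b with b | b
        · exact h1 a b (fun e => hab (by rw [e]))
        · exact absurd (by rw [mem_F_inr.1 hb]) hb'
      · exact absurd (by rw [mem_F_inr.1 ha]) ha')
    (by
      intro a ha ha'
      rcases a with a | a
      · exact h2 T a
      · exact absurd (by rw [mem_F_inr.1 ha]) ha')
  unfold ang
  rw [hc k hk l hl hk' hl' hkl, hb k hk hk', hb l hl hl']
  set E : ℝ := 1 / 2 + n * (t - 1 / 2) with hE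
  have hE' : 0 < 1 / 2 + (n - 1 : ℝ) * (t - 1 / 2) := by
    have : 1 / 2 + (n - 1 : ℝ) * (t - 1 / 2) = E - (t - 1 / 2) := by rw [hE]; ring
    rw [this]; linarith
  have h3 : -(1 / 2 + (n - 1 : ℝ) * (t - 1 / 2)) / E * (-(1 / 2 + (n - 1 : ℝ) * (t - 1 / 2)) / E)
      = ((1 / 2 + (n - 1 : ℝ) * (t - 1 / 2)) / E) ^ 2 := by ring
  rw [h3, Real.sqrt_sq (by positivity)]
  congr 1
  field_simp

theorem curv_new (hP : Pyr (V ⊕ Finset V)) {n : ℕ} (hn : 4 ≤ n) {K : Finset (Finset V)}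
    (hK : Pure n K) {T : Finset V} (hT : T ∈ K) {τ : Finset V} (hτT : τ ⊆ T) (hτ : #τ = n - 2)
    {t : ℝ} (ht : 0 < 1 / 2 + n * (t - 1 / 2)) (ht1 : t < 1 / 2) {z : Sym2 (V ⊕ Finset V) → ℝ}
    (h1 : ∀ x y : V, x ≠ y → z s(Sum.inl x, Sum.inl y) = 1)
    (h2 : ∀ (T : Finset V) (x : V), z s(Sum.inr T, Sum.inl x) = t) :
    curv (cone K) z (F T τ) =
      1 - 3 * arccos ((t - 1 / 2) / (1 / 2 + (n - 1) * (t - 1 / 2))) / (2 * π) := by
  set θ := arccos ((t - 1 / 2) / (1 / 2 + (n - 1 : ℝ) * (t - 1 / 2))) with hθ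
  unfold curv
  have hsub : (T \ τ).image (fun v => F T (T.erase v)) ⊆ cone K := by
    intro T' hT'
    obtain ⟨v, hv, rfl⟩ := mem_image.1 hT'
    exact mem_cone.2 ⟨T, hT, v, (mem_sdiff.1 hv).1, rfl⟩
  rw [← sum_subset hsub]
  · rw [sum_image]
    · rw [sum_congr rfl (g := fun _ => 2 * (θ / (4 * π)))]
      · rw [sum_const, card_sdiff_of_subset hτT, hτ, hK T hT]
        have h3 : n + 1 - (n - 2) = 3 := by omega
        rw [h3]
        have hπ : π ≠ 0 := Real.pi_ne_zero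
        simp only [nsmul_eq_mul]
        push_cast
        field_simp
        ring
      · intro v hv
        obtain ⟨hv1, hv2⟩ := mem_sdiff.1 hv
        have hcv : #(T.erase v) = n := by rw [card_erase_of_mem hv1, hK T hT]; omega
        apply angsum
        · refine F_subset.2 fun y hy => mem_erase.2 ⟨fun e => hv2 (e ▸ hy), hτT hy⟩
        · rw [card_F, card_F, hcv, hτ]; omega
        · intro k hk l hl hk' hl' hkl
          rw [ang_lat hP hn hcv ht ht1 h1 h2 hk hl (fun e => hk' (by rw [e]; exact mem_F_inr.2 rfl))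
            (fun e => hl' (by rw [e]; exact mem_F_inr.2 rfl)) hkl]
    · intro v hv w hw hvw
      have h3 := F_inj hvw
      by_contra hne
      have hv1 : v ∈ T := (mem_sdiff.1 hv).1
      have : v ∈ T.erase w := mem_erase.2 ⟨hne, hv1⟩
      rw [← h3] at this
      simp at this
  · intro T' hT' hnot
    apply angsum_zero
    intro hs
    apply hnot
    obtain ⟨S, hS, v, hv, rfl⟩ := mem_cone.1 hT'
    have hST : T = S := mem_F_inr.1 (hs (mem_F_inr.2 rfl))
    subst hST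
    refine mem_image.2 ⟨v, mem_sdiff.2 ⟨hv, fun h => ?_⟩, rfl⟩
    have := F_subset.1 hs h
    simp at this

/-- E2: new edges. -/
theorem ein_new (hP : Pyr (V ⊕ Finset V)) {n : ℕ} (hn : 4 ≤ n) {K : Finset (Finset V)}
    (hK : Pure n K) {T : Finset V} (hT : T ∈ K) {x : V} (hx : x ∈ T)
    {t : ℝ} (ht : 0 < 1 / 2 + n * (t - 1 / 2)) (ht1 : t < 1 / 2) {z : Sym2 (V ⊕ Finset V) → ℝ}
    (h1 : ∀ x y : V, x ≠ y → z s(Sum.inl x, Sum.inl y) = 1)
    (h2 : ∀ (T : Finset V) (x : V), z s(Sum.inr T, Sum.inl x) = t) :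
    ein n (cone K) z (Sum.inr T) (Sum.inl x) =
      √(1 / (2 ^ (n - 2) * ((n - 2).factorial : ℝ) ^ 2)) *
      (n.choose 3 * (1 - 3 * arccos ((t - 1 / 2) / (1 / 2 + (n - 1) * (t - 1 / 2))) / (2 * π)) *
        √(1 + 2 * (n - 2) * (t - 1 / 2)) * (1 / (2 * (1 / 2 + (n - 2) * (t - 1 / 2))))) := by
  unfold ein
  rw [filt hn hK hT x, sum_image (fun a _ b _ h => F_inj h)]
  set θ := arccos ((t - 1 / 2) / (1 / 2 + (n - 1 : ℝ) * (t - 1 / 2))) with hθ
  rw [sum_congr rfl (g := fun _ => (1 - 3 * θ / (2 * π)) *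
    (√(1 / (2 ^ (n - 2) * ((n - 2).factorial : ℝ) ^ 2)) * √(1 + 2 * (n - 2) * (t - 1 / 2)) *
      (1 / (2 * (1 / 2 + (n - 2) * (t - 1 / 2))))))]
  · rw [sum_const, card_filt hn (hK T hT) hx, nsmul_eq_mul]
    ring
  · intro τ hτ
    obtain ⟨hτ1, hxτ⟩ := mem_filter.1 hτ
    obtain ⟨hτT, hcτ⟩ := mem_powersetCard.1 hτ1
    have hcast : ((n - 2 : ℕ) : ℝ) = n - 2 := by
      rw [Nat.cast_sub (by omega)]; norm_num
    have hE2 : 0 < 1 / 2 + (n - 2 : ℝ) * (t - 1 / 2) := by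
      have : 1 / 2 + (n - 2 : ℝ) * (t - 1 / 2) = (1 / 2 + n * (t - 1 / 2)) - 2 * (t - 1 / 2) := by
        ring
      rw [this]; linarith
    obtain ⟨ha, hb, -, -⟩ := hP z (F T τ) (Sum.inr T) (mem_F_inr.2 rfl) (n - 2)
      (by rw [card_F, hcτ]) (by omega) t (by rw [hcast]; exact hE2)
      (by
        intro a ha b hb ha' hb' hab
        rcases a with a | a
        · rcases b with b | b
          · exact h1 a b (fun e => hab (by rw [e]))
          · exact absurd (by rw [mem_F_inr.1 hb]) hb'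
        · exact absurd (by rw [mem_F_inr.1 ha]) ha')
      (by
        intro a ha ha'
        rcases a with a | a
        · exact h2 T a
        · exact absurd (by rw [mem_F_inr.1 ha]) ha')
    rw [hcast] at ha hb
    rw [curv_new hP hn hK hT hτT hcτ ht ht1 h1 h2,
      hb (Sum.inl x) (mem_F_inl.2 hxτ) (by simp)]
    have hv : vol z (F T τ) = √(1 / (2 ^ (n - 2) * ((n - 2).factorial : ℝ) ^ 2)) *
        √(1 + 2 * (n - 2) * (t - 1 / 2)) := by
      unfold vol
      rw [ha, card_F, hcτ]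
      have h3 : n - 2 + 1 - 1 = n - 2 := by omega
      rw [h3, ← Real.sqrt_mul (by positivity)]
      congr 1
      ring
    rw [hv]

end Pool.Agent.H51En
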